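import Mathlib
import Pool.Agent.Run7.h767.ST.Gal
import Pool.Agent.Run7.h767.ST.OZ

/-!
# Zeta functions of ray classes of orders by prime ideals, and the monoid Stark conjecture

(A) Let `K` be a number field, `O` an order of `K`, `𝔪` an ideal of `O`, `0 ≠ 𝔪 ≠ O`, such that some
power of `𝔪` is contained in the conductor of `O` (that is, `𝔪` is contained in every prime ideal of
`O` which contains the conductor; for `O = 𝓞 K` this is no condition), `P` a set of real embeddings of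
`K`; suppose that `K` has a complex place or that `P` does not contain all the real embeddings. Let `A`
be a homomorphism from the ray class group `Cl_(𝔪 P)(O)` to a finite commutative group `G` (for
instance the isomorphism `Art` to the Galois group of the ray class field). For `ρ ∈ G` the function
`ζ(s, ρ) = ∑ [O : 𝔞]^(-s)`, the sum over the ideals `𝔞` of `O` with `𝔞 + 𝔪 = O` and `A(𝔞) = ρ`, has a
continuation, analytic outside of `1`, it vanishes at `0`, and for every `γ > π / 2`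

  `ζ'(0, ρ) = T e^(-Λ_γ) (1 / |G|) ∑_ψ conj ψ(ρ) exp (∑_(τ ∈ G) ψ(τ) S_τ(T)) + O(1 / T)`,

  `S_τ(T) = ∑_(𝔭, k : A(𝔭 ^ k ∩ O) = τ) (1 / k) e^(i γ u) / Γ(1 + u)`, `u = k log N(𝔭) / T`,

where `ψ` runs through the characters of `G`, `𝔭` through the prime ideals of `𝓞 K` prime to
`(𝔪 : 𝓞 K)`, and `Λ_γ = ∫_0^∞ (e^(-t) - e^(i γ t) / Γ(1 + t)) dt / t`. This is unconditional; no
continuation and no zeros occur on the right: the prime ideals, sorted by their classes in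
`Cl_(𝔪 P)(O)`, are counted with the weight `1` (the point `s = 0`).

(B) Let `K` be a real quadratic field with the real embeddings `σ₁, σ₂`, `O` and `𝔪` as in (A), `H` the
ray class field of `O` modulo `𝔪 ∞₂`, with a real embedding which extends `σ₁`, and `α ∈ O`,
`α ≡ -1 mod 𝔪`, `σ₂(α) > 0`; `R` is the class of `α O`. The conjecture (Q1) for the classes in the
group `Cl_(𝔪 ∞₂)(O)` (identified with the `ρ ∈ Gal(H/K)` by `Art`) holds if and only if there are units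
`ε_ρ` of `H` with the conditions (ii), (iii), (iv) of Q1 and, in place of the condition (i)
`ε_ρ = exp (-Z'(0, ρ))`, `ε_ρ = lim_(T → ∞) exp (E_(R ρ)(T) - E_ρ(T))`, where `E_ρ(T)` is the right side
in (A) (`P = {σ₂}`), a sum over prime ideals of `K` sorted by their Frobenius automorphisms in `H`.
The limit may be taken along any sequence (any filter `l ≤ atTop`).
-/

set_option autoImplicit false
set_option linter.unusedSectionVars false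

namespace Pool.Agent.Results.MP_6bf7a3_nt.OrderClassesByPrimes

open NumberField Filter Topology Asymptotics

section defs

variable {K : Type} [Field K] [NumberField K] {O : Subring (𝓞 K)} {G : Type} [Group G]

/-- `O` is an order of `K`: a subring of `𝓞 K` which contains `n 𝓞 K` for an `n ≥ 1`. -/
def IsOrder (O : Subring (𝓞 K)) : Prop := ∃ n : ℕ, n ≠ 0 ∧ ∀ y : 𝓞 K, (n : 𝓞 K) * y ∈ O

/-- The ideals of `O`. -/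
abbrev Id (O : Subring (𝓞 K)) : Type := Ideal O

/-- A power of `𝔪` is contained in the conductor `{x | x 𝓞 K ⊆ O}` of `O`. -/
def PowInConductor (𝔪 : Id O) : Prop :=
  ∃ k : ℕ, ∀ x ∈ 𝔪 ^ k, ∀ y : 𝓞 K, (x : 𝓞 K) * y ∈ O

/-- `O` is an order, `0 ≠ 𝔪 ≠ O`, and a power of `𝔪` is contained in the conductor of `O`. -/
structure IsModulus (𝔪 : Id O) : Prop where
  order : IsOrder O
  ne_bot : 𝔪 ≠ ⊥
  ne_top : 𝔪 ≠ ⊤
  pow : PowInConductor 𝔪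

/-- `(𝔪 : 𝓞 K) = {x | x 𝓞 K ⊆ 𝔪}`. -/
def colon (𝔪 : Id O) : Ideal (𝓞 K) where
  carrier := {x | ∀ y : 𝓞 K, ∃ z ∈ 𝔪, (z : 𝓞 K) = x * y}
  add_mem' := (Run7.h767.ST.OZ.colon 𝔪).add_mem'
  zero_mem' := (Run7.h767.ST.OZ.colon 𝔪).zero_mem'
  smul_mem' := (Run7.h767.ST.OZ.colon 𝔪).smul_mem'

/-- `x` is positive at the real embeddings in `P`. -/
def Pos (P : Set (K →+* ℝ)) (x : 𝓞 K) : Prop := ∀ σ ∈ P, 0 < σ (x : K)

/-- The ideals `𝔞` and `𝔟` of `O` are in the same class of `Cl_(𝔪 P)(O)`: `x 𝔞 = y 𝔟` with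
`P`-positive `x, y ∈ O`, `x ≡ y ≡ 1 mod 𝔪`. -/
def SameClass (𝔪 : Id O) (P : Set (K →+* ℝ)) (𝔞 𝔟 : Id O) : Prop :=
  ∃ x y : O, (x - 1 ∈ 𝔪 ∧ Pos P x) ∧ (y - 1 ∈ 𝔪 ∧ Pos P y) ∧
    Ideal.span {x} * 𝔞 = Ideal.span {y} * 𝔟

/-- On the ideals `𝔞` with `𝔞 + 𝔪 = O` the function `A` is a homomorphism from the ray class group
`Cl_(𝔪 P)(O)` to `G` (its values at the other ideals are irrelevant). -/
structure IsRayHom (𝔪 : Id O) (P : Set (K →+* ℝ)) (A : Id O → G) : Prop where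
  mul : ∀ 𝔞 𝔟, IsCoprime 𝔞 𝔪 → IsCoprime 𝔟 𝔪 → A (𝔞 * 𝔟) = A 𝔞 * A 𝔟
  ray : ∀ x : O, x - 1 ∈ 𝔪 → Pos P (x : 𝓞 K) → A (Ideal.span {x}) = 1

/-- `H` is the ray class field of `O` modulo `𝔪 P` and `A` is `Art`: `A` induces an isomorphism
`Cl_(𝔪 P)(O) → Gal(H/K)`, and `A(𝔭 ∩ O)` is the (arithmetic) Frobenius automorphism of `𝔭` for the
prime ideals `𝔭` of `𝓞 K` prime to `(𝔪 : 𝓞 K)`. -/
structure IsRayClassField (H : Type) [Field H] [NumberField H] [Algebra K H]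
    (𝔪 : Id O) (P : Set (K →+* ℝ)) (A : Id O → (H ≃ₐ[K] H)) : Prop where
  galois : IsGalois K H
  frob : ∀ 𝔭 : Ideal (𝓞 K), 𝔭.IsPrime → 𝔭 ≠ ⊥ → IsCoprime 𝔭 (colon 𝔪) → ∀ 𝔓 : Ideal (𝓞 H),
    𝔓.IsPrime → 𝔓.comap (algebraMap (𝓞 K) (𝓞 H)) = 𝔭 → ∀ x : 𝓞 H, ∃ y ∈ 𝔓,
      ((y : 𝓞 H) : H) = A (𝔭.comap O.subtype) (x : H) - (x : H) ^ Ideal.absNorm 𝔭
  mul : ∀ 𝔞 𝔟, IsCoprime 𝔞 𝔪 → IsCoprime 𝔟 𝔪 → A (𝔞 * 𝔟) = A 𝔞 * A 𝔟
  same : ∀ 𝔞 𝔟, IsCoprime 𝔞 𝔪 → IsCoprime 𝔟 𝔪 → (A 𝔞 = A 𝔟 ↔ SameClass 𝔪 P 𝔞 𝔟)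
  surj : ∀ ρ, ∃ 𝔞, IsCoprime 𝔞 𝔪 ∧ A 𝔞 = ρ

/-- `R = A(α O)` for an `α ∈ O` with `α ≡ -1 mod 𝔪`, positive at `P`. -/
def IsR (𝔪 : Id O) (P : Set (K →+* ℝ)) (A : Id O → G) (R : G) : Prop :=
  ∃ α : O, α + 1 ∈ 𝔪 ∧ Pos P (α : 𝓞 K) ∧ A (Ideal.span {α}) = R

/-- `ζ(s, ρ) = ∑_(𝔞 ⊆ O, 𝔞 + 𝔪 = O, A(𝔞) = ρ) [O : 𝔞]^(-s)`. -/
noncomputable def zser (𝔪 : Id O) (A : Id O → G) (ρ : G) (s : ℂ) : ℂ :=
  ∑' 𝔞 : {𝔞 : Id O // IsCoprime 𝔞 𝔪 ∧ A 𝔞 = ρ}, ((Nat.card (O ⧸ 𝔞.1) : ℕ) : ℂ) ^ (-s)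

/-- `Z` is the continuation of `ζ(s, ρ)`. -/
def IsZeta (𝔪 : Id O) (A : Id O → G) (ρ : G) (Z : ℂ → ℂ) : Prop :=
  (∀ s, MeromorphicAt Z s) ∧ AnalyticAt ℂ Z 0 ∧ ∀ s : ℂ, 1 < s.re → Z s = zser 𝔪 A ρ s

/-- `Z` is the continuation of `Z(s, ρ) = ζ(s, ρ) - ζ(s, R ρ)`. -/
def IsDiffZeta (𝔪 : Id O) (A : Id O → G) (R ρ : G) (Z : ℂ → ℂ) : Prop :=
  (∀ s, MeromorphicAt Z s) ∧ AnalyticAt ℂ Z 0 ∧ ∀ s : ℂ, 1 < s.re →
    Z s = zser 𝔪 A ρ s - zser 𝔪 A (R * ρ) s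

open Classical in
/-- `1 / k` if `𝔞 = 𝔭 ^ k` with a prime ideal `𝔭` and `k ≥ 1`, and `0` if `𝔞` is not such a power:
`log N(rad 𝔞) / log N(𝔞)`. -/
noncomputable def wt (𝔞 : Ideal (𝓞 K)) : ℝ :=
  if IsPrimePow 𝔞 then Real.log (Ideal.absNorm 𝔞.radical) / Real.log (Ideal.absNorm 𝔞) else 0

/-- `(1 / k) e^(i γ u) / Γ(1 + u)`, `u = log N(𝔞) / T`, for `𝔞 = 𝔭 ^ k`. -/
noncomputable def term (γ T : ℝ) (𝔞 : Ideal (𝓞 K)) : ℂ :=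
  (wt 𝔞 : ℂ) * Complex.exp ((γ * (Real.log (Ideal.absNorm 𝔞) / T) : ℝ) * Complex.I) *
    ((Real.Gamma (1 + Real.log (Ideal.absNorm 𝔞) / T))⁻¹ : ℝ)

/-- `S_τ(T)`: the sum over the powers of prime ideals of `𝓞 K` prime to `(𝔪 : 𝓞 K)` with
`A(𝔭 ^ k ∩ O) = τ`. -/
noncomputable def primeSum (𝔪 : Id O) (A : Id O → G) (τ : G) (γ T : ℝ) : ℂ :=
  ∑' 𝔟 : {𝔟 : Ideal (𝓞 K) // IsCoprime 𝔟 (colon 𝔪) ∧ A (𝔟.comap O.subtype) = τ}, term γ T 𝔟.1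

/-- `Λ_γ = ∫_0^∞ (e^(-t) - e^(i γ t) / Γ(1 + t)) dt / t`. -/
noncomputable def Lam (γ : ℝ) : ℂ := ∫ t in Set.Ioi (0 : ℝ),
  (Complex.exp (-(t : ℂ)) - Complex.exp ((γ * t : ℝ) * Complex.I) *
    ((Real.Gamma (1 + t))⁻¹ : ℝ)) / t

/-- `E_ρ(T) = T e^(-Λ_γ) (1 / |G|) ∑_ψ conj ψ(ρ) exp (∑_τ ψ(τ) S_τ(T))`, `ψ` the characters. -/
noncomputable def approx (𝔪 : Id O) (A : Id O → G) (ρ : G) (γ T : ℝ) : ℂ :=
  T * Complex.exp (-Lam γ) * ((Nat.card G : ℂ)⁻¹ *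
    ∑ᶠ ψ : G →* ℂˣ, (starRingEnd ℂ) ((ψ ρ : ℂˣ) : ℂ) *
      Complex.exp (∑ᶠ τ : G, ((ψ τ : ℂˣ) : ℂ) * primeSum 𝔪 A τ γ T))

/-- The assertions of (A) for all `ρ ∈ G`: the continuation, the zero at `0`, and the formula
`ζ'(0, ρ) = E_ρ(T) + O(1 / T)` for all `γ > π / 2` (with absolutely convergent sums). -/
def Formula (𝔪 : Id O) (A : Id O → G) : Prop :=
  ∀ ρ : G, (∃ Z, IsZeta 𝔪 A ρ Z ∧ ∀ s : ℂ, s ≠ 1 → AnalyticAt ℂ Z s) ∧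
    ∀ Z, IsZeta 𝔪 A ρ Z → Z 0 = 0 ∧ ∀ γ : ℝ, Real.pi / 2 < γ →
      (∀ T > 0, Summable fun 𝔞 : Ideal (𝓞 K) => ‖term γ T 𝔞‖) ∧
      (fun T : ℝ => approx 𝔪 A ρ γ T - deriv Z 0) =O[atTop] fun T : ℝ => 1 / T

variable {H : Type} [Field H] [NumberField H] [Algebra K H]

/-- `K` is a real quadratic field with the real embeddings `σ₁ ≠ σ₂`. -/
def IsRealQuadratic (K : Type) [Field K] [NumberField K] (σ₁ σ₂ : K →+* ℝ) : Prop :=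
  Module.finrank ℚ K = 2 ∧ σ₁ ≠ σ₂

/-- Conditions (ii) and (iii) for the family `ε_ρ`, `ρ ∈ Gal(H/K)`: `τ(ε_ρ) = ε_(ρ τ)`, and
`|g(ε_ρ)| = 1` for every embedding `g` of `H` in `ℂ` which restricts to `σ₂` on `K`. -/
def Cond (σ₂ : K →+* ℝ) (ε : (H ≃ₐ[K] H) → (𝓞 H)ˣ) : Prop :=
  (∀ ρ τ : H ≃ₐ[K] H, τ ((ε ρ : 𝓞 H) : H) = ((ε (ρ * τ) : 𝓞 H) : H)) ∧
    ∀ (ρ : H ≃ₐ[K] H) (g : H →+* ℂ), g.comp (algebraMap K H) = Complex.ofRealHom.comp σ₂ →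
      ‖g ((ε ρ : 𝓞 H) : H)‖ = 1

/-- Condition (iv): the fields `H(ε_ρ^(1/2))` are abelian over `K`. -/
def SqrtAbelian (ε : (H ≃ₐ[K] H) → (𝓞 H)ˣ) : Prop :=
  ∀ ρ, ∃ θ : AlgebraicClosure H,
    θ ^ 2 = algebraMap H (AlgebraicClosure H) ((ε ρ : 𝓞 H) : H) ∧
      IsGalois K (IntermediateField.adjoin H {θ}) ∧
        ∀ σ τ : IntermediateField.adjoin H {θ} ≃ₐ[K] IntermediateField.adjoin H {θ},
          σ * τ = τ * σ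

/-- The assertion of Q1 for `K`, `O`, `𝔪` and the classes in the group `Cl_(𝔪 ∞₂)(O)`, with the ray
class field `H`, `A = Art`, the class `R` and the real embedding `ι` of `H` over `σ₁`. -/
def Stark (σ₂ : K →+* ℝ) (𝔪 : Id O) (A : Id O → (H ≃ₐ[K] H)) (R : H ≃ₐ[K] H) (ι : H →+* ℝ) : Prop :=
  ∃ ε : (H ≃ₐ[K] H) → (𝓞 H)ˣ, (∀ ρ Z, IsDiffZeta 𝔪 A R ρ Z →
    ((ι ((ε ρ : 𝓞 H) : H) : ℝ) : ℂ) = Complex.exp (-deriv Z 0)) ∧ Cond σ₂ ε ∧ SqrtAbelian ε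

/-- The same with `ε_ρ = lim exp (E_(R ρ)(T) - E_ρ(T))` in place of `ε_ρ = exp (-Z'(0, ρ))`. -/
def StarkLim (γ : ℝ) (l : Filter ℝ) (σ₂ : K →+* ℝ) (𝔪 : Id O)
    (A : Id O → (H ≃ₐ[K] H)) (R : H ≃ₐ[K] H) (ι : H →+* ℝ) : Prop :=
  ∃ ε : (H ≃ₐ[K] H) → (𝓞 H)ˣ, (∀ ρ, Tendsto (fun T : ℝ =>
    Complex.exp (approx 𝔪 A (R * ρ) γ T - approx 𝔪 A ρ γ T)) l
      (𝓝 ((ι ((ε ρ : 𝓞 H) : H) : ℝ) : ℂ))) ∧ Cond σ₂ ε ∧ SqrtAbelian ε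

/-- The data of Q1: `K` is a real quadratic field with the real embeddings `σ₁ ≠ σ₂`, `O` is an order,
`0 ≠ 𝔪 ≠ O`, a power of `𝔪` is contained in the conductor of `O`, `H` is the ray class field of `O`
modulo `𝔪 ∞₂`, `A = Art`, `R` is the class of `α O` with `α ≡ -1 mod 𝔪`, `σ₂(α) > 0`, and `ι` is an
embedding of `H` in `ℝ` which extends `σ₁`. -/
structure Data (σ₁ σ₂ : K →+* ℝ) (𝔪 : Id O) (A : Id O → (H ≃ₐ[K] H)) (R : H ≃ₐ[K] H)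
    (ι : H →+* ℝ) : Prop where
  real : IsRealQuadratic K σ₁ σ₂
  modulus : IsModulus 𝔪
  field : IsRayClassField H 𝔪 {σ₂} A
  refl : IsR 𝔪 {σ₂} A R
  emb : ι.comp (algebraMap K H) = σ₁

end defs

/-- Q1 for all the classes in the groups `Cl_(𝔪 ∞₂)(O)` (data as in `Data`). -/
def AllStark : Prop :=
  ∀ (K H : Type) [Field K] [NumberField K] [Field H] [NumberField H] [Algebra K H]
    (σ₁ σ₂ : K →+* ℝ) (O : Subring (𝓞 K)) (𝔪 : Id O) (A : Id O → (H ≃ₐ[K] H)) (R : H ≃ₐ[K] H)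
    (ι : H →+* ℝ), Data σ₁ σ₂ 𝔪 A R ι → Stark σ₂ 𝔪 A R ι

/-- The same with the limits. -/
def AllStarkLim (γ : ℝ) (l : Filter ℝ) : Prop :=
  ∀ (K H : Type) [Field K] [NumberField K] [Field H] [NumberField H] [Algebra K H]
    (σ₁ σ₂ : K →+* ℝ) (O : Subring (𝓞 K)) (𝔪 : Id O) (A : Id O → (H ≃ₐ[K] H)) (R : H ≃ₐ[K] H)
    (ι : H →+* ℝ), Data σ₁ σ₂ 𝔪 A R ι → StarkLim γ l σ₂ 𝔪 A R ι

/-- For each of the data the two assertions are equivalent. -/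
def EachIff (γ : ℝ) (l : Filter ℝ) : Prop :=
  ∀ (K H : Type) [Field K] [NumberField K] [Field H] [NumberField H] [Algebra K H]
    (σ₁ σ₂ : K →+* ℝ) (O : Subring (𝓞 K)) (𝔪 : Id O) (A : Id O → (H ≃ₐ[K] H)) (R : H ≃ₐ[K] H)
    (ι : H →+* ℝ), Data σ₁ σ₂ 𝔪 A R ι → (Stark σ₂ 𝔪 A R ι ↔ StarkLim γ l σ₂ 𝔪 A R ι)


section proofs

variable {K : Type} [Field K] [NumberField K] {O : Subring (𝓞 K)}

open Classical in
lemma term_eq (γ T : ℝ) (𝔞 : Ideal (𝓞 K)) : term γ T 𝔞 = Run7.h767.ST.tm γ T 𝔞 := by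
  have h : (wt 𝔞 : ℝ) = Pool.Agent.Y773.VM 𝔞 / Run7.h767.ST.lg 𝔞 := by
    unfold wt Pool.Agent.Y773.VM Run7.h767.ST.lg
    split_ifs
    · rfl
    · rw [zero_div]
  unfold term
  rw [h]
  rfl

lemma colon_eq (𝔪 : Ideal O) : colon 𝔪 = Run7.h767.ST.OZ.colon 𝔪 := rfl

lemma approx_eq {G : Type} [Group G] (𝔪 : Ideal O) (A : Ideal O → G) (ρ : G) (γ T : ℝ) :
    approx 𝔪 A ρ γ T =
      Run7.h767.ST.apG (colon 𝔪) (fun 𝔟 => A (𝔟.comap O.subtype)) ρ γ T := by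
  have h : ∀ τ : G, primeSum 𝔪 A τ γ T =
      Run7.h767.ST.SG (colon 𝔪) (fun 𝔟 => A (𝔟.comap O.subtype)) τ γ T := by
    intro τ
    unfold primeSum Run7.h767.ST.SG
    exact tsum_congr fun 𝔞 => term_eq γ T 𝔞.1
  unfold approx Run7.h767.ST.apG
  simp only [h]
  rfl

lemma IsRayHom.isArt {G : Type} [Group G] {𝔪 : Ideal O} {P : Set (K →+* ℝ)}
    {A : Ideal O → G} (h : IsRayHom 𝔪 P A) :
    Run7.h767.ST.IsArt (colon 𝔪) P (fun 𝔟 => A (𝔟.comap O.subtype)) := by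
  refine ⟨fun 𝔞 𝔟 ha hb => ?_, fun x hx hp => ?_⟩
  · show A ((𝔞 * 𝔟).comap O.subtype) = _
    rw [Run7.h767.ST.OZ.comap_mul ha hb]
    exact h.mul _ _ (Run7.h767.ST.OZ.cop_of_FF (Run7.h767.ST.OZ.cop_comap ha))
      (Run7.h767.ST.OZ.cop_of_FF (Run7.h767.ST.OZ.cop_comap hb))
  · obtain ⟨z, hz, hzx, hc⟩ := Run7.h767.ST.OZ.comap_span hx
    show A ((Ideal.span {x}).comap O.subtype) = 1
    rw [hc]
    refine h.ray z hz fun σ hσ => ?_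
    rw [hzx]
    exact hp σ hσ

/-- the two zeta functions agree -/
lemma zser_eq {G : Type} [Group G] {𝔪 : Ideal O} (hc : PowInConductor 𝔪) (A : Ideal O → G) (ρ : G)
    (s : ℂ) : zser 𝔪 A ρ s =
      ∑' 𝔟 : {𝔟 : Ideal (𝓞 K) // IsCoprime 𝔟 (colon 𝔪) ∧ A (𝔟.comap O.subtype) = ρ},
        ((Ideal.absNorm 𝔟.1 : ℕ) : ℂ) ^ (-s) := by
  obtain ⟨k, hk⟩ := hc
  unfold zser
  rw [← (Run7.h767.ST.OZ.equiv hk A ρ).tsum_eq]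
  refine tsum_congr fun 𝔟 => ?_
  have h1 : Nat.card (O ⧸ 𝔟.1.comap O.subtype) = Ideal.absNorm 𝔟.1 := by
    rw [Run7.h767.ST.OZ.card_quot (Run7.h767.ST.OZ.cop_comap 𝔟.2.1),
      Run7.h767.ST.OZ.map_comap 𝔟.2.1, Ideal.absNorm_apply, Submodule.cardQuot_apply]
  show ((Nat.card (O ⧸ 𝔟.1.comap O.subtype) : ℕ) : ℂ) ^ (-s) = _
  rw [h1]

lemma colon_bot (hO : IsOrder O) {𝔪 : Ideal O} (hm : 𝔪 ≠ ⊥) : colon 𝔪 ≠ ⊥ := by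
  obtain ⟨n, hn, hn'⟩ := hO
  exact Run7.h767.ST.OZ.colon_ne_bot hm (by exact_mod_cast hn) hn'

/-- (A) -/
lemma partA {P : Set (K →+* ℝ)} (hK : (∃ w : InfinitePlace K, w.IsComplex) ∨ P ≠ Set.univ)
    (hO : IsOrder O) {𝔪 : Ideal O} (hbot : 𝔪 ≠ ⊥) (htop : 𝔪 ≠ ⊤) (hc : PowInConductor 𝔪)
    {G : Type} [Group G] [Finite G]
    (hG : ∀ a b : G, a * b = b * a) {A : Ideal O → G} (hA : IsRayHom 𝔪 P A) (ρ : G) :
    (∃ Z, IsZeta 𝔪 A ρ Z ∧ ∀ s : ℂ, s ≠ 1 → AnalyticAt ℂ Z s) ∧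
      ∀ Z, IsZeta 𝔪 A ρ Z → Z 0 = 0 ∧ ∀ γ : ℝ, Real.pi / 2 < γ →
        (fun T : ℝ => approx 𝔪 A ρ γ T - deriv Z 0) =O[atTop] fun T : ℝ => 1 / T := by
  obtain ⟨Z₀, h1, h2, h3, h4, h5⟩ := Run7.h767.ST.main_G hK (colon_bot hO hbot)
    (Run7.h767.ST.OZ.colon_ne_top htop) hG hA.isArt ρ
  have hZ₀ : IsZeta 𝔪 A ρ Z₀ := ⟨h2, h1 0 (by norm_num), fun s hs => by
    rw [h3 s hs, zser_eq hc]
    rfl⟩
  refine ⟨⟨Z₀, hZ₀, h1⟩, fun Z hZ => ?_⟩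
  have h6 : Z =ᶠ[𝓝 0] Z₀ := Run7.h767.ST.mero_uniq hZ.1 hZ₀.1 hZ.2.1 hZ₀.2.1 fun s hs => by
    rw [hZ.2.2 s hs, hZ₀.2.2 s hs]
  refine ⟨h6.eq_of_nhds.trans h4, fun γ hγ => ?_⟩
  rw [h6.deriv_eq]
  exact (h5 γ hγ).congr_left fun T => by rw [approx_eq]

lemma tendsto_of_isBigO {f : ℝ → ℂ} {c : ℂ}
    (h : (fun T : ℝ => f T - c) =O[atTop] fun T : ℝ => 1 / T) : Tendsto f atTop (𝓝 c) := by
  have h1 : Tendsto (fun T : ℝ => f T - c) atTop (𝓝 0) :=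
    h.trans_tendsto (tendsto_const_nhds.div_atTop tendsto_id)
  have h2 := h1.add_const c
  simpa using h2

/-- there is an `α ≡ -1 mod 𝔪`, positive at `P` -/
lemma exists_alpha (hO : IsOrder O) {𝔪 : Ideal O} (hbot : 𝔪 ≠ ⊥) (htop : 𝔪 ≠ ⊤)
    (P : Set (K →+* ℝ)) : ∃ α : O, α + 1 ∈ 𝔪 ∧ Pos P (α : 𝓞 K) := by
  set N := Ideal.absNorm (colon 𝔪) with hN
  have h0 : N ≠ 0 := by
    rw [hN, Ne, Ideal.absNorm_eq_zero_iff]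
    exact colon_bot hO hbot
  have h1 : N ≠ 1 := by
    rw [hN, Ne, Ideal.absNorm_eq_one_iff]
    exact Run7.h767.ST.OZ.colon_ne_top htop
  have h2 : ((N : ℕ) : 𝓞 K) ∈ Run7.h767.ST.OZ.colon 𝔪 := Ideal.absNorm_mem (colon 𝔪)
  obtain ⟨z, hz, h3⟩ := Run7.h767.ST.OZ.colon_mem h2
  refine ⟨z - 1, by simpa using hz, fun σ _ => ?_⟩
  have h4 : (((z - 1 : O) : 𝓞 K) : K) = (N : K) - 1 := by
    have h5 : ((z - 1 : O) : 𝓞 K) = (N : 𝓞 K) - 1 := by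
      rw [← h3]
      rfl
    rw [h5]
    show algebraMap (𝓞 K) K ((N : 𝓞 K) - 1) = _
    rw [map_sub, map_natCast, map_one]
  rw [h4, map_sub, map_natCast, map_one, sub_pos]
  have h5 : 1 < N := by omega
  exact_mod_cast h5

variable {H : Type} [Field H] [NumberField H] [Algebra K H]

lemma IsRayClassField.comm {𝔪 : Ideal O} {P : Set (K →+* ℝ)}
    {A : Ideal O → (H ≃ₐ[K] H)} (h : IsRayClassField H 𝔪 P A) (a b : H ≃ₐ[K] H) :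
    a * b = b * a := by
  obtain ⟨𝔞, h𝔞, rfl⟩ := h.surj a
  obtain ⟨𝔟, h𝔟, rfl⟩ := h.surj b
  rw [← h.mul 𝔞 𝔟 h𝔞 h𝔟, ← h.mul 𝔟 𝔞 h𝔟 h𝔞, mul_comm]

lemma IsRayClassField.hom {𝔪 : Ideal O} {P : Set (K →+* ℝ)}
    {A : Ideal O → (H ≃ₐ[K] H)} (h : IsRayClassField H 𝔪 P A) : IsRayHom 𝔪 P A := by
  have h1 : A 1 = 1 := by
    have h2 := h.mul 1 1 isCoprime_one_left isCoprime_one_left
    rw [mul_one] at h2
    exact left_eq_mul.1 h2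
  refine ⟨h.mul, fun x hx hp => ?_⟩
  have hcop : IsCoprime (Ideal.span {x}) 𝔪 := by
    refine Ideal.isCoprime_iff_exists.2 ⟨x, Ideal.mem_span_singleton_self x, -(x - 1),
      neg_mem hx, by ring⟩
  rw [← h1, h.same _ _ hcop isCoprime_one_left]
  refine ⟨1, x, ⟨by rw [sub_self]; exact zero_mem _, fun σ _ => ?_⟩, ⟨hx, hp⟩, ?_⟩
  · have h2 : (((1 : O) : 𝓞 K) : K) = 1 := by
      rw [Subring.coe_one]
      exact map_one _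
    rw [h2, map_one]
    exact one_pos
  · rw [Ideal.span_singleton_one, mul_one, ← Ideal.one_eq_top, one_mul]

/-- the derivatives of the differenced zeta functions of a ray class field -/
lemma exp_iff {P : Set (K →+* ℝ)} (hK : (∃ w : InfinitePlace K, w.IsComplex) ∨ P ≠ Set.univ)
    (hO : IsOrder O) {𝔪 : Ideal O} (hbot : 𝔪 ≠ ⊥) (htop : 𝔪 ≠ ⊤) (hc : PowInConductor 𝔪)
    {A : Ideal O → (H ≃ₐ[K] H)}
    (hA : IsRayClassField H 𝔪 P A) (R : H ≃ₐ[K] H) {γ : ℝ} (hγ : Real.pi / 2 < γ) {l : Filter ℝ}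
    [l.NeBot] (hl : l ≤ atTop) (ρ : H ≃ₐ[K] H) (c : ℂ) :
    (∀ Z, IsDiffZeta 𝔪 A R ρ Z → c = Complex.exp (-deriv Z 0)) ↔
      Tendsto (fun T : ℝ => Complex.exp (approx 𝔪 A (R * ρ) γ T -
        approx 𝔪 A ρ γ T)) l (𝓝 c) := by
  obtain ⟨⟨Z₁, hZ₁, h1an⟩, h1⟩ := partA hK hO hbot htop hc hA.comm hA.hom ρ
  obtain ⟨⟨Z₂, hZ₂, h2an⟩, h2⟩ :=
    partA hK hO hbot htop hc hA.comm hA.hom (R * ρ)
  have hZ : IsDiffZeta 𝔪 A R ρ (fun s => Z₁ s - Z₂ s) :=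
    ⟨fun s => (hZ₁.1 s).fun_sub (hZ₂.1 s), hZ₁.2.1.fun_sub hZ₂.2.1, fun s hs => by
      show Z₁ s - Z₂ s = _
      rw [hZ₁.2.2 s hs, hZ₂.2.2 s hs]⟩
  have hder : deriv (fun s => Z₁ s - Z₂ s) 0 = deriv Z₁ 0 - deriv Z₂ 0 :=
    deriv_fun_sub hZ₁.2.1.differentiableAt hZ₂.2.1.differentiableAt
  have h3 : ∀ Z, IsDiffZeta 𝔪 A R ρ Z → Tendsto (fun T : ℝ =>
      Complex.exp (approx 𝔪 A (R * ρ) γ T - approx 𝔪 A ρ γ T)) l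
        (𝓝 (Complex.exp (-deriv Z 0))) := by
    intro Z hZ'
    have h6 : Z =ᶠ[𝓝 0] fun s => Z₁ s - Z₂ s :=
      Run7.h767.ST.mero_uniq hZ'.1 hZ.1 hZ'.2.1 hZ.2.1 fun s hs => by
        rw [hZ'.2.2 s hs]
        exact (hZ.2.2 s hs).symm
    rw [h6.deriv_eq, hder]
    have h7 := ((tendsto_of_isBigO ((h2 Z₂ hZ₂).2 γ hγ)).sub
      (tendsto_of_isBigO ((h1 Z₁ hZ₁).2 γ hγ))).mono_left hl
    have h8 : -(deriv Z₁ 0 - deriv Z₂ 0) = deriv Z₂ 0 - deriv Z₁ 0 := by ring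
    rw [h8]
    exact (Complex.continuous_exp.tendsto _).comp h7
  constructor
  · intro h4
    rw [h4 _ hZ]
    exact h3 _ hZ
  · intro h4 Z hZ'
    exact tendsto_nhds_unique h4 (h3 Z hZ')

end proofs

/-- See the header. -/
theorem result :
    -- (A) the formula, for every order, modulus and homomorphism to a finite group
    (∀ (K : Type) [Field K] [NumberField K] (P : Set (K →+* ℝ)),
      ((∃ w : InfinitePlace K, w.IsComplex) ∨ P ≠ Set.univ) →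
        ∀ (O : Subring (𝓞 K)) (𝔪 : Id O), IsModulus 𝔪 →
          ∀ (G : Type) [Group G] [Finite G], (∀ a b : G, a * b = b * a) →
            ∀ A : Id O → G, IsRayHom 𝔪 P A → (∃ R, IsR 𝔪 P A R) ∧ Formula 𝔪 A) ∧
    -- (B) Q1 for the classes in the ray class group
    ∀ (γ : ℝ), Real.pi / 2 < γ → ∀ l : Filter ℝ, l.NeBot → l ≤ atTop →
      EachIff γ l ∧ (AllStark ↔ AllStarkLim γ l) := by
  refine ⟨?_, ?_⟩
  · intro K _ _ P hK O 𝔪 hm G _ _ hG A hA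
    obtain ⟨α, h1, h2⟩ := exists_alpha hm.order hm.ne_bot hm.ne_top P
    refine ⟨⟨_, α, h1, h2, rfl⟩, fun ρ => ?_⟩
    obtain ⟨h1, h2⟩ := partA hK hm.order hm.ne_bot hm.ne_top hm.pow hG hA ρ
    refine ⟨h1, fun Z hZ => ⟨(h2 Z hZ).1, fun γ hγ => ⟨fun T hT => ?_, (h2 Z hZ).2 γ hγ⟩⟩⟩
    exact (Run7.h767.ST.tm_summable γ hT).congr fun 𝔞 => by rw [term_eq]
  · intro γ hγ l hl1 hl
    have key : EachIff γ l := by
      intro K H _ _ _ _ _ σ₁ σ₂ O 𝔪 A R ι hD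
      have hP : ({σ₂} : Set (K →+* ℝ)) ≠ Set.univ := by
        intro h
        have h1 : σ₁ ∈ ({σ₂} : Set (K →+* ℝ)) := by rw [h]; exact Set.mem_univ _
        exact hD.real.2 h1
      have h1 : ∀ (ρ : H ≃ₐ[K] H) (c : ℂ), (∀ Z, IsDiffZeta 𝔪 A R ρ Z →
          c = Complex.exp (-deriv Z 0)) ↔
          Tendsto (fun T : ℝ => Complex.exp (approx 𝔪 A (R * ρ) γ T -
            approx 𝔪 A ρ γ T)) l (𝓝 c) := fun ρ c =>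
        exp_iff (Or.inr hP) hD.modulus.order hD.modulus.ne_bot hD.modulus.ne_top hD.modulus.pow
          hD.field R hγ hl ρ c
      unfold Stark StarkLim
      simp only [h1]
    refine ⟨key, ?_, ?_⟩
    · intro h K H _ _ _ _ _ σ₁ σ₂ O 𝔪 A R ι hD
      exact (key K H σ₁ σ₂ O 𝔪 A R ι hD).1 (h K H σ₁ σ₂ O 𝔪 A R ι hD)
    · intro h K H _ _ _ _ _ σ₁ σ₂ O 𝔪 A R ι hD
      exact (key K H σ₁ σ₂ O 𝔪 A R ι hD).2 (h K H σ₁ σ₂ O 𝔪 A R ι hD)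

end Pool.Agent.Results.MP_6bf7a3_nt.OrderClassesByPrimes
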